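import Pool.Agent.U543.LkFin

/-!
# Points linked with a given Hodge structure, in arbitrary variations of Hodge structure

Let `(G, X)`, `V ⊆ Γ \ X⁺`, `(M, X_M)`, `x ∈ X_M` Hodge generic, and `Σ` be as in the problem: `Σ` is the set of the
points `x'` such that the adjoint Mumford-Tate datum of `x'` is an image of `(M^ad, x^ad)`. A faithful representation of
`G` defines a polarised variation of Hodge structure on `V` (on the resolution and coordinate charts). Let `M₀` be a
polarised Hodge structure of the same weight whose adjoint Mumford-Tate datum is `(M^ad, x^ad)` (for instance the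
adjoint representation tensored with a fixed Hodge structure of CM type; `M₀ = 0` if `x` is special). For a point `s` of
`V` which belongs to `Σ` there is a morphism of Hodge structures `ψ : End M₀ → End V_s` with image
`𝔪 = Lie (M_s)^der`, where `M_s` is the Mumford-Tate group of `V_s`. The matrices commuting with the endomorphisms of the
Hodge structure `V_s` form the algebra generated by `M_s`, and those of them which also commute with `𝔪` are in its
centre. So `V_s` is linked with `M₀` in the sense of the definition `Linked`, by Hodge tensors of order at most four and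
of some height, the complexity of the point `s` of `Σ`.

We show for arbitrary polarised variations of Hodge structure with infinite monodromy (not only Shimura varieties), in
any number of variables, and uniformly in all `M₀`: the algebraic points of bounded degree and height at most `T` which
are linked with `M₀` by Hodge tensors of height at most `T ^ k` lie on `T ^ ε` hypersurfaces of bounded degree. So
outside few hypersurfaces the points of `V ∩ Σ` have large degree or large complexity. The case `M₀ = 0` is about CM
points. The proof: at all other points the Hodge tensors of bounded height have finite orbits under the monodromy group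
(`Pool.Agent.U543.HT`), so the elements of a subgroup of finite index commute with the endomorphisms of `V_s` and with
`𝔪`, hence with the Weil operator; they preserve a positive definite Hermitian form and are finite in number.
-/

namespace Pool.Agent.Results.MP_7e5527_ag.LinkedPoints

open Filter
open Pool.Agent.U543.GD (Height Covered IsMonodromy)
open Pool.Agent.U543.HT (Polarized Variation Auts)
open Pool.Agent.U543.LK

/-- **Linked points are sparse.** Let `V` be a polarised variation of Hodge structure of weight `wt` on `U`
(`Variation`: the period matrix `P x` is analytic in `x`, its `j`-th column is in `F ^ (w j)`, and it satisfies the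
Riemann-Hodge bilinear relations with the integral form `S`), such that the group `Auts U P S` is infinite. For a number
`k`, a number field `K` of degree at most `k`, embedded in `ℂ`, and a polarised Hodge structure `M₀` of weight `wt` and
of dimension `r ≤ k` (with the period matrix `C₀`, adapted to the Hodge filtration by `w₀`, polarised by `S₀`) let
`LinkedPoints` be the set of all points `s` of `U` with coordinates in `K` of height at most `T`, of norm at most `k` and
at distance at least `1 / k` from the complement of `U`, such that `V_s` is linked with `M₀` by Hodge tensors of order at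
most `k` and of height at most `T ^ k`.

(1) For every `k` and `ε > 0` there are `D`, `C` such that for all large `T` and all such `K` and `M₀` this set lies on at
most `C T ^ ε` hypersurfaces of degree at most `D`, and has at most `D C T ^ ε N ^ (|X| - 1)` elements, `N` being the number
of elements of `K` of height at most `T`.
(2) There is `ω → ∞` such that for all large `T`, `k = ω T`, and all such `K` and `M₀` this set lies on at most
`T ^ (1 / k)` hypersurfaces of degree at most `T ^ (1 / k)`, and has at most `T ^ (1 / k) N ^ (|X| - 1)` elements.
(3) The set `Auts U P S` consists of the integral matrices `g` which preserve `S` and all polynomial relations over `ℂ[x]`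
between the entries of `P`; the integral monodromy matrices which preserve `S` belong to it.
(4) A Hodge structure is linked with every `M₀` (by tensors of order two) if it has complex multiplication: if the
matrices which commute with its endomorphisms of height at most `H` commute with each other. -/
theorem result (X ι : Type) [Fintype X] [DecidableEq X] [Nonempty X] [Fintype ι] [DecidableEq ι] (wt : ℤ) (w : ι → ℤ)
    (S : Matrix ι ι ℤ) (U : Set (X → ℂ)) (P : (X → ℂ) → Matrix ι ι ℂ) (h : Variation wt w S U P)
    (hinf : (Auts U P S).Infinite) :
    (∀ (k : ℕ) (ε : ℝ), 0 < ε → ∃ (D : ℕ) (C T₀ : ℝ), 0 ≤ C ∧ 2 ≤ T₀ ∧ ∀ T, T₀ ≤ T →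
      ∀ (K : Type) [Field K] [NumberField K], Module.finrank ℚ K ≤ k → ∀ (io : K →+* ℂ) (r : ℕ), r ≤ k →
        ∀ (w₀ : Fin r → ℤ) (S₀ : Matrix (Fin r) (Fin r) ℤ) (C₀ : Matrix (Fin r) (Fin r) ℂ), Polarized wt w₀ S₀ C₀ →
        Covered D ⌊C * T ^ ε⌋₊ ((fun (s : X → K) j => io (s j)) '' LinkedPoints wt w S U P k K io w₀ C₀ T) ∧
        (LinkedPoints wt w S U P k K io w₀ C₀ T).Finite ∧
        ((LinkedPoints wt w S U P k K io w₀ C₀ T).ncard : ℝ) ≤
          D * C * T ^ ε * ((Height K T).ncard : ℝ) ^ (Fintype.card X - 1)) ∧
    (∃ (ω : ℝ → ℕ) (T₀ : ℝ), Tendsto ω atTop atTop ∧ Monotone ω ∧ ∀ T, T₀ ≤ T → 0 < ω T ∧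
      ∀ (K : Type) [Field K] [NumberField K], Module.finrank ℚ K ≤ ω T → ∀ (io : K →+* ℂ) (r : ℕ), r ≤ ω T →
        ∀ (w₀ : Fin r → ℤ) (S₀ : Matrix (Fin r) (Fin r) ℤ) (C₀ : Matrix (Fin r) (Fin r) ℂ), Polarized wt w₀ S₀ C₀ →
        Covered ⌊T ^ ((ω T : ℝ)⁻¹)⌋₊ ⌊T ^ ((ω T : ℝ)⁻¹)⌋₊
          ((fun (s : X → K) j => io (s j)) '' LinkedPoints wt w S U P (ω T) K io w₀ C₀ T) ∧
        (LinkedPoints wt w S U P (ω T) K io w₀ C₀ T).Finite ∧
        ((LinkedPoints wt w S U P (ω T) K io w₀ C₀ T).ncard : ℝ) ≤
          T ^ ((ω T : ℝ)⁻¹) * ((Height K T).ncard : ℝ) ^ (Fintype.card X - 1)) ∧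
    (∀ g : Matrix ι ι ℤ, IsMonodromy U P (g.map (Int.cast : ℤ → ℂ)) → g * S * g.transpose = S → g ∈ Auts U P S) ∧
    ∀ (M : Matrix ι ι ℂ) (r : ℕ) (w₀ : Fin r → ℤ) (C₀ : Matrix (Fin r) (Fin r) ℂ) (k : ℕ) (H : ℝ), 2 ≤ k →
      (∀ g ∈ Commutant (Corr wt w S M w₀ C₀ 0 H), ∀ c ∈ Commutant (Corr wt w S M w₀ C₀ 0 H), g * c = c * g) →
      Linked wt w S M w₀ C₀ k H :=
  ⟨fun k ε hε => link_fix h hinf k ε hε, link_main h hinf,
    fun _ hg hS => ⟨Pool.Agent.U543.GD.gal_of_monodromy h.family.isPreconnected h.family.analytic hg, hS⟩,
    fun _ _ _ _ _ _ hk hcm => linked_of_cm hk hcm⟩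

end Pool.Agent.Results.MP_7e5527_ag.LinkedPoints
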