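import Pool.Agent.U536.CF.TN
import Pool.Agent.U86.LinkQ
import Pool.Agent.Results.MP_7e5527_ag.LinkedPoints

/-!
# Rational points given by integers with large common factors with the values of multiplicative functions are not linked
# with a given Hodge structure

Let `(G, X)`, `V`, `(M, X_M)` and `Σ` be as in the problem, and let `V` be a polarised variation of Hodge structure over an
open set of `ℂ ^ n`, with infinite monodromy, and `M₀` a polarised Hodge structure with ANY complex periods, as in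
`LinkedPoints`: if the adjoint Mumford-Tate datum of `M₀` is that of `(M, X_M)`, then the points `x` of `Σ` are such that
`V_x` is linked with `M₀`.

Let `F_0, …, F_n` be positive multiplicative functions of at most polynomial growth with `F_i(p) ≤ M p` for the large
primes `p`, with different values at different large primes; for example Euler's function or the sum of the divisors. There
are `η > 0` and `ρ < 1`, which depend only on `n`, such that for all `V`, `k`, `F_i`, all `b < 1` and `0 ≤ c < 2 b - 1`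
and all large `N` the following holds for ALL `M₀` of dimension at most `k`, for all but `N ^ (n + 1) exp (-(log N)^c)` of
the tuples `(m_0, …, m_n)` of positive integers `≤ N`. For EVERY tuple `v` of integers `v_i ≥ exp ((log N)^b)` such that
`gcd(v_i, F_i(m_i)) ≥ v_j^ρ` for all `i`, `j`, and for ALL integers `x_i ≠ 0` and `y_i` which are bounded in absolute value
by `v_l ^ η` for some `l`, the following holds for the integers `α_i = x_i v_i + y_i`, `α_0 ≠ 0`, and the rational point
`a = (α_1 / α_0, …, α_n / α_0)`, if it is in `U`, of norm at most `k` and at distance at least `1 / k` from the complement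
of `U`: `V_a` is NOT linked with `M₀` by Hodge tensors of order at most `k` and of height at most `max |α_i| ^ k`. In
particular `a` is not a point of `Σ` of such complexity. The tuples `v` include all tuples of divisors `v_i` of
`F_i(m_i)` of size at least `exp ((log N)^b)` with `v_i ≥ v_j ^ ρ`.

Proof. By `LinkedPoints` the linked rational points of height at most `T` lie on `C T ^ (1/2)` hypersurfaces of bounded
degree; so the tuples `α` in `[-T, T] ^ (n + 1)` which give such points number at most `C' T ^ (n + 1/2)`, by the bound of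
Schwartz and Zippel on each hypersurface and for each `α_0`. The theorem `common_near` of `U536.CF` shows that such a set
contains the tuple `α` for few tuples `m` only, uniformly in the set.
-/

set_option autoImplicit false

namespace Pool.Agent.Results.MP_7e5527_ag.CommonFactors

open Pool.Agent.N733.TG (LM lm_totient lm_sigma)
open Pool.Agent.U536.CF (CommonT commonT_of_dvd common_near)
open Pool.Agent.U543.HT (Polarized Variation Auts)
open Pool.Agent.U543.LK (LinkedPoints)
open Pool.Agent.U86.RC (Quot)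
open Pool.Agent.U86.LQ (NotLinked notLinked_of link_count)

/-- **Theorem.** Let `n ≥ 1`. There are `η > 0` and `0 < ρ < 1` with the following property. Let `V` be a polarised
variation of Hodge structure of weight `wt` on the open subset `U` of `ℂ ^ n` (`Variation`), such that the group
`Auts U P S` is infinite, let `k ≥ 1`, let `F_0, …, F_n` be positive multiplicative functions of polynomial growth, which
are injective and at most `M p` at the large primes `p` (`LM`), and `b < 1`, `0 ≤ c < 2 b - 1`. For all large `N` and ALL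
polarised Hodge structures `M₀` of weight `wt` and of dimension `r ≤ k`, with any period matrix `C₀`, for all but
`N ^ (n + 1) exp (-(log N)^c)` of the tuples `m` of positive integers `m_0, …, m_n ≤ N`, for EVERY tuple `v` of integers
`v_i ≥ exp ((log N)^b)` with `gcd(v_i, F_i(m_i)) ≥ v_j ^ ρ` for all `i`, `j` and ALL integers `x_i ≠ 0`, `y_i`, of absolute
value at most `v_l ^ η` for some `l`, the rational point `a = (α_1 / α_0, …, α_n / α_0)`, where `α_i = x_i v_i + y_i`,
`α_0 ≠ 0`, has the property `NotLinked`: if `a` is in `U`, of norm at most `k` and at distance at least `1 / k` from the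
complement of `U`, then `V_a` is not linked with `M₀` by Hodge tensors of order at most `k` and of height at most
`max |α_i| ^ k`. Euler's function and the sum of the divisors are examples of the `F_i`, and the tuples of divisors `v_i` of
`F_i(m_i)` with `v_i ≥ exp ((log N)^b)` and `v_i ≥ v_j ^ ρ` for all `i`, `j` are examples of `v`. -/
theorem result (n : ℕ) (hn : 1 ≤ n) :
    (∃ η ρ : ℝ, 0 < η ∧ 0 < ρ ∧ ρ < 1 ∧
      ∀ (ι : Type) [Fintype ι] [DecidableEq ι] (wt : ℤ) (w : ι → ℤ) (S : Matrix ι ι ℤ) (U : Set (Fin n → ℂ))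
        (P : (Fin n → ℂ) → Matrix ι ι ℂ), Variation wt w S U P → (Auts U P S).Infinite →
      ∀ k : ℕ, 1 ≤ k → ∀ F : Fin (n + 1) → ℕ → ℕ, (∀ i, LM (F i)) → ∀ b c : ℝ, b < 1 → 0 ≤ c → c < 2 * b - 1 →
      ∃ N₀ : ℕ, ∀ N : ℕ, N₀ ≤ N →
      ∀ r : ℕ, r ≤ k → ∀ (w₀ : Fin r → ℤ) (S₀ : Matrix (Fin r) (Fin r) ℤ) (C₀ : Matrix (Fin r) (Fin r) ℂ),
        Polarized wt w₀ S₀ C₀ →
      ({m : Fin (n + 1) → ℕ | (∀ i, 1 ≤ m i ∧ m i ≤ N) ∧ ¬ ∀ v : Fin (n + 1) → ℕ, CommonT F b ρ N m v →
        ∀ x y α : Fin (n + 1) → ℤ,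
          (∃ l, ∀ i, x i ≠ 0 ∧ |(x i : ℝ)| ≤ (v l : ℝ) ^ η ∧ |(y i : ℝ)| ≤ (v l : ℝ) ^ η) →
        (∀ i, α i = x i * (v i : ℤ) + y i) → α 0 ≠ 0 → NotLinked wt w S U P k w₀ C₀ α}.ncard : ℝ) ≤
        (N : ℝ) ^ (n + 1) * Real.exp (-(Real.log N ^ c))) ∧
    (LM Nat.totient ∧ LM (fun m => ∑ d ∈ m.divisors, d)) ∧
    ∀ (F : Fin (n + 1) → ℕ → ℕ) (b ρ : ℝ) (N : ℕ) (m v : Fin (n + 1) → ℕ),
      (∀ i, Real.exp (Real.log N ^ b) ≤ (v i : ℝ)) → (∀ i, v i ∣ F i (m i)) →
      (∀ i j, (v j : ℝ) ^ ρ ≤ (v i : ℝ)) → CommonT F b ρ N m v := by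
  refine ⟨?_, ⟨lm_totient, lm_sigma⟩, fun F b ρ N m v h1 h2 h3 => commonT_of_dvd h1 h2 h3⟩
  obtain ⟨η, ρ, hη, hρ0, hρ1, hk⟩ := common_near (k := n + 1) (by omega) (c := 1 / 2) (by norm_num)
  refine ⟨η, ρ, hη, hρ0, hρ1, fun ι _ _ wt w S U P hV hinf k hk1 F hF b c hb hc hcb => ?_⟩
  have : Nonempty (Fin n) := ⟨⟨0, hn⟩⟩
  obtain ⟨D, C, T₀, hC, hT₀, hcov⟩ :=
    (Pool.Agent.Results.MP_7e5527_ag.LinkedPoints.result (Fin n) ι wt w S U P hV hinf).1 k (1 / 2) (by norm_num)
  obtain ⟨N₀, hN₀⟩ := hk F hF (C * D * 3 ^ n + (3 * T₀) ^ (n + 1)) b c hb hc hcb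
  refine ⟨N₀, fun N hN r hr w₀ S₀ C₀ hM₀ => ?_⟩
  have hN' := hN₀ N hN _ (fun T hT => link_count (wt := wt) (w := w) (S := S) (U := U) (P := P) (k := k) hn hC hT₀
    (w₀ := w₀) (C₀ := C₀)
    (fun T hT => (hcov T hT ℚ (by rw [Module.finrank_self]; exact hk1) (algebraMap ℚ ℂ) r hr w₀ S₀ C₀ hM₀).1) T hT)
  have hfin : {m : Fin (n + 1) → ℕ | ∀ i, 1 ≤ m i ∧ m i ≤ N}.Finite := by
    refine (Set.Finite.pi' (fun _ : Fin (n + 1) => Set.finite_Icc 1 N)).subset (fun m hm i => ?_)
    exact Set.mem_Icc.2 (hm i)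
  have hsub : {m : Fin (n + 1) → ℕ | (∀ i, 1 ≤ m i ∧ m i ≤ N) ∧
      ¬ ∀ v : Fin (n + 1) → ℕ, CommonT F b ρ N m v → ∀ x y α : Fin (n + 1) → ℤ,
        (∃ l, ∀ i, x i ≠ 0 ∧ |(x i : ℝ)| ≤ (v l : ℝ) ^ η ∧ |(y i : ℝ)| ≤ (v l : ℝ) ^ η) →
        (∀ i, α i = x i * (v i : ℤ) + y i) → α 0 ≠ 0 → NotLinked wt w S U P k w₀ C₀ α} ⊆
      {m : Fin (n + 1) → ℕ | (∀ i, 1 ≤ m i ∧ m i ≤ N) ∧
      ¬ ∀ v : Fin (n + 1) → ℕ, CommonT F b ρ N m v → ∀ x y : Fin (n + 1) → ℤ,
        (∃ l, ∀ i, x i ≠ 0 ∧ |(x i : ℝ)| ≤ (v l : ℝ) ^ η ∧ |(y i : ℝ)| ≤ (v l : ℝ) ^ η) →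
        (fun i => x i * (v i : ℤ) + y i) ∉
          Quot (fun T => LinkedPoints wt w S U P k ℚ (algebraMap ℚ ℂ) w₀ C₀ T)} := by
    intro m hm
    refine ⟨hm.1, fun h => hm.2 (fun v hv x y α hxy hα h0 => ?_)⟩
    have h1 := h v hv x y hxy
    have e : (fun i => x i * (v i : ℤ) + y i) = α := by
      funext i
      exact (hα i).symm
    rw [e] at h1
    exact notLinked_of h0 h1
  have hle := Set.ncard_le_ncard hsub (hfin.subset fun m hm => hm.1)
  exact ((Nat.cast_le (α := ℝ)).2 hle).trans hN'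

end Pool.Agent.Results.MP_7e5527_ag.CommonFactors
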