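import Pool.Agent.Results.MP_7e5527_ag.LinkedPoints
import Pool.Agent.U265.VH.Abs

/-!
# No points linked with a given Hodge structure near the points of a curve, outside a set of Hausdorff dimension zero

The problem is about the set `Σ` of the points `x'` of a Shimura variety for which the adjoint Mumford-Tate datum of `x'` is an image
of a fixed datum `(M^ad, x^ad)`, and about its intersection with a subvariety `V`. By the file `LinkedPoints` (helper543) the
Hodge structure at a point `s` of `V ∩ Σ` is linked (`Linked`) with a fixed polarised Hodge structure `M₀` by Hodge tensors of some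
order and height, the complexity of the point. Let `V` be a curve, or more generally let a polarised variation of Hodge structure
with infinite monodromy on a connected open subset `U` of `ℂ` be given (`Variation`, not necessarily of Shimura type).

**Theorem.** Let `M_a`, `a ∈ A`, be a countable family of polarised Hodge structures of the same weight, with arbitrary complex
periods. There is ONE set `E` of complex numbers of Hausdorff dimension ZERO such that for all `x ∈ U` outside of `E`, ALL `a`, ALL number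
fields `K` in `ℂ`, all `k` and all `σ > 0`, for all large `T`: no point `s` of `K` of height at most `T` with `|x - s| ≤ T ^ (-σ)` is
linked with `M_a` by Hodge tensors of order at most `k` and height at most `T ^ k`.

So outside of a set of dimension zero no point of the curve is approximated, even very slowly, by algebraic points in `Σ` of
polynomial complexity. `LinkedPoints` bounds the number of these points of height at most `T` by `T ^ ε`, for each field, `k` and `M₀`.
The proof: covers by the disks of radius `T ^ (-σ)` around the exceptional points (`Pool.Agent.U265.VH.abs_law`, from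
`Pool.Agent.N84.MD.scales` of the starting library), and there are countably many number fields in `ℂ`.
-/

set_option autoImplicit false

namespace Pool.Agent.Results.MP_7e5527_ag.LinkedPointsNearAPoint

open Filter
open Pool.Agent.U543.GD (Height Inner)
open Pool.Agent.U543.HT (Polarized Variation Auts)
open Pool.Agent.U543.LK

/-- A family of polarised Hodge structures of weight `wt`: the period matrix `C a`, adapted to the Hodge filtration by `w a`,
polarised by `S a`. -/
structure HodgeFamily (wt : ℤ) (A : Type) where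
  r : A → ℕ
  w : (a : A) → Fin (r a) → ℤ
  S : (a : A) → Matrix (Fin (r a)) (Fin (r a)) ℤ
  C : (a : A) → Matrix (Fin (r a)) (Fin (r a)) ℂ
  polarized : ∀ a, Polarized wt (w a) (S a) (C a)

section
variable {X ι : Type} [Fintype X] [DecidableEq X] [Nonempty X] [Fintype ι] [DecidableEq ι]

/-- For all large `T`, no `K`-point `s` of height at most `T` within `T ^ (-σ)` of `x` is linked with the Hodge structure with the
period matrix `C₀` by Hodge tensors of order at most `k` and height at most `T ^ k`. -/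
def NotLinked (wt : ℤ) (w : ι → ℤ) (S : Matrix ι ι ℤ) (P : (X → ℂ) → Matrix ι ι ℂ) {r : ℕ} (w₀ : Fin r → ℤ)
    (C₀ : Matrix (Fin r) (Fin r) ℂ) (K : Subfield ℂ) [NumberField K] (k : ℕ) (σ : ℝ) (x : X → ℂ) : Prop :=
  ∀ᶠ T : ℝ in atTop, ∀ s : X → K, (∀ j, s j ∈ Height K T) → (∀ j, ‖x j - (s j : ℂ)‖ ≤ T ^ (-σ)) →
    ¬ Linked wt w S (P fun j => (s j : ℂ)) w₀ C₀ k (T ^ k)

lemma height_mono (K : Type) [Field K] [NumberField K] {T T' : ℝ} (h : T ≤ T') : Height K T ⊆ Height K T' := by
  rintro x ⟨a, b, hb, h1, h2, h3⟩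
  exact ⟨a, b, hb, h1.trans h, h2.trans h, h3⟩

omit [DecidableEq X] [Nonempty X] in
lemma inner_mono (U : Set (X → ℂ)) {k k' : ℕ} (hk : 0 < k) (h : k ≤ k') : Inner U k ⊆ Inner U k' := by
  rintro z ⟨h1, h2⟩
  have h3 : (k : ℝ) ≤ k' := by exact_mod_cast h
  have h4 : (0 : ℝ) < k := by exact_mod_cast hk
  exact ⟨h1.trans h3, (Metric.ball_subset_ball (inv_anti₀ h4 h3)).trans h2⟩

lemma corr_mono {wt : ℤ} {w : ι → ℤ} {S : Matrix ι ι ℤ} {M : Matrix ι ι ℂ} {r : ℕ} {w₀ : Fin r → ℤ}
    {C₀ : Matrix (Fin r) (Fin r) ℂ} {m : ℕ} {H H' : ℝ} (h : H ≤ H') : Corr wt w S M w₀ C₀ m H ⊆ Corr wt w S M w₀ C₀ m H' := by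
  rintro E ⟨v, J, h1, h2, h3⟩
  exact ⟨v, J, fun I => (h1 I).trans h, h2, h3⟩

lemma linked_mono {wt : ℤ} {w : ι → ℤ} {S : Matrix ι ι ℤ} {M : Matrix ι ι ℂ} {r : ℕ} {w₀ : Fin r → ℤ}
    {C₀ : Matrix (Fin r) (Fin r) ℂ} {k k' : ℕ} {H H' : ℝ} (hk : k ≤ k') (h : H ≤ H') (hl : Linked wt w S M w₀ C₀ k H) :
    Linked wt w S M w₀ C₀ k' H' := by
  intro g hg c hc
  refine hl g (fun E hE => ?_) c (fun E hE => hc E (corr_mono h hE))
  obtain ⟨m, hm, hE⟩ := hE
  exact hg E ⟨m, hm.trans hk, corr_mono h hE⟩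

lemma points_mono {wt : ℤ} {w : ι → ℤ} {S : Matrix ι ι ℤ} {U : Set (X → ℂ)} {P : (X → ℂ) → Matrix ι ι ℂ} {k k' : ℕ}
    (hk : 0 < k) (hkk : k ≤ k') (K : Type) [Field K] [NumberField K] (io : K →+* ℂ) {r : ℕ} {w₀ : Fin r → ℤ}
    {C₀ : Matrix (Fin r) (Fin r) ℂ} {T T' : ℝ} (hT : 1 ≤ T) (hTT : T ≤ T') :
    LinkedPoints wt w S U P k K io w₀ C₀ T ⊆ LinkedPoints wt w S U P k' K io w₀ C₀ T' := by
  rintro s ⟨h1, h2, h3⟩
  refine ⟨fun j => height_mono K hTT (h1 j), inner_mono U hk hkk h2, linked_mono hkk ?_ h3⟩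
  calc T ^ k ≤ T' ^ k := pow_le_pow_left₀ (by linarith) hTT _
    _ ≤ T' ^ k' := pow_le_pow_right₀ (by linarith) hkk

end

/-- **No points linked with given Hodge structures near the points of a curve outside a set of Hausdorff dimension zero.** -/
theorem result (X ι : Type) [Fintype X] [DecidableEq X] [Nonempty X] [Fintype ι] [DecidableEq ι] (hX : Fintype.card X = 1)
    (wt : ℤ) (w : ι → ℤ) (S : Matrix ι ι ℤ) (U : Set (X → ℂ)) (P : (X → ℂ) → Matrix ι ι ℂ) (h : Variation wt w S U P)
    (hinf : (Auts U P S).Infinite) (A : Type) [Countable A] (M : HodgeFamily wt A) :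
    ∃ E : Set (X → ℂ), dimH E = 0 ∧ ∀ x ∈ U, x ∉ E → ∀ (a : A) (K : Subfield ℂ) [NumberField K] (k : ℕ) (σ : ℝ), 0 < σ →
      NotLinked wt w S P (M.w a) (M.C a) K k σ x := by
  classical
  obtain ⟨E, hE, hlaw⟩ := Pool.Agent.U265.VH.abs_law
    (fun (a : A) (K : Subfield ℂ) (_ : NumberField K) (k _ : ℕ) (T : ℝ) =>
      LinkedPoints wt w S U P (k + 1) K K.subtype (M.w a) (M.C a) T)
    (fun a K _ k b => ⟨1, fun T T' h1 h2 _ => points_mono (Nat.succ_pos k) le_rfl K K.subtype h1 h2⟩)
    (fun a K _ k ε hε => by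
      obtain ⟨k', hk1, hk2, hk3⟩ : ∃ k', k + 1 ≤ k' ∧ Module.finrank ℚ K ≤ k' ∧ M.r a ≤ k' :=
        ⟨max (k + 1) (max (Module.finrank ℚ K) (M.r a)), le_max_left _ _, (le_max_left _ _).trans (le_max_right _ _),
          (le_max_right _ _).trans (le_max_right _ _)⟩
      obtain ⟨D, C, T₀, hC, hT₀, H⟩ := (LinkedPoints.result X ι wt w S U P h hinf).1 k' ε hε
      refine ⟨0, D * C, T₀, fun T hT => ?_⟩
      obtain ⟨-, h2, h3⟩ := H T hT K hk2 K.subtype (M.r a) hk3 (M.w a) (M.S a) (M.C a) (M.polarized a)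
      have hsub := points_mono (wt := wt) (w := w) (S := S) (U := U) (P := P) (Nat.succ_pos k) hk1 K K.subtype
        (w₀ := M.w a) (C₀ := M.C a) (by linarith : 1 ≤ T) (le_refl T)
      rw [hX, Nat.sub_self, pow_zero, mul_one] at h3
      refine ⟨h2.subset hsub, le_trans ?_ h3⟩
      exact_mod_cast Set.ncard_le_ncard hsub h2)
  refine ⟨E, hE, fun x hx hxE a K _ k σ hσ => ?_⟩
  obtain ⟨k', hk1, hk2, hin⟩ := Pool.Agent.U265.VH.inner_near h.family.isOpen hx k
  obtain ⟨m, rfl⟩ : ∃ m, k' = m + 1 := ⟨k' - 1, by omega⟩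
  obtain ⟨b, h1⟩ := hlaw x hxE a K m σ hσ
  unfold NotLinked
  filter_upwards [h1, hin σ hσ, eventually_ge_atTop (1 : ℝ)] with T h2 h3 h4 s h5 h6 h7
  refine h2 s ⟨h5, h3 _ h6, linked_mono hk1 ?_ h7⟩ h6
  exact pow_le_pow_right₀ h4 hk1

end Pool.Agent.Results.MP_7e5527_ag.LinkedPointsNearAPoint
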